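import Pool.Agent.Y908.WU.NSB

/-! WU-CP : comparison of the laws of the two spanning trees (helper908). -/

set_option autoImplicit false

namespace Pool.Agent.Y908.WU

open Pool.Agent.Y782.WU
open scoped BigOperators

open Classical in
theorem cp (h : S_HL) : S_CP := by
  intro W E M O F S0 hpos hFO
  obtain ⟨c, hc0, hct, hcS⟩ := h W E M O hpos
  have hnY : 0 < NS M ∅ ∅ tr := lt_of_lt_of_le hpos (NS_mono M fun S _ _ _ _ =>
    ⟨Finset.empty_subset _, Finset.disjoint_empty_right _, trivial⟩)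
  have hA : ∀ P : Finset E → Prop, ((NS M ∅ O P : ℕ) : ℝ) * ((NS M ∅ ∅ tr : ℕ) : ℝ) =
      ∑ t ∈ M.D.powerset, ∑ S ∈ M.D.powerset, (c t S : ℝ) * (if P t then (1 : ℝ) else 0) := by
    intro P
    have h1 : ∀ t ∈ M.D.powerset, ∑ S ∈ M.D.powerset, (c t S : ℝ) * (if P t then (1:ℝ) else 0) =
        if (IsST M t ∧ ∅ ⊆ t ∧ Disjoint t O ∧ P t) then ((NS M ∅ ∅ tr : ℕ) : ℝ) else 0 := by
      intro t _
      by_cases hP : P t
      · by_cases hI : IsST M t ∧ Disjoint t O
        · rw [if_pos (show IsST M t ∧ ∅ ⊆ t ∧ Disjoint t O ∧ P t from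
            ⟨hI.1, Finset.empty_subset _, hI.2, hP⟩), ← hct t hI.1 hI.2, Nat.cast_sum]
          refine Finset.sum_congr rfl fun S _ => ?_
          rw [if_pos hP, mul_one]
        · rw [if_neg (show ¬ (IsST M t ∧ ∅ ⊆ t ∧ Disjoint t O ∧ P t) from
            fun h2 => hI ⟨h2.1, h2.2.2.1⟩)]
          refine Finset.sum_eq_zero fun S _ => ?_
          have : c t S = 0 := by
            by_contra hne
            exact hI ⟨(hc0 t S hne).1, (hc0 t S hne).2.1⟩
          rw [this, Nat.cast_zero, zero_mul]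
      · rw [if_neg (show ¬ (IsST M t ∧ ∅ ⊆ t ∧ Disjoint t O ∧ P t) from fun h2 => hP h2.2.2.2)]
        refine Finset.sum_eq_zero fun S _ => ?_
        rw [if_neg hP, mul_zero]
    rw [Finset.sum_congr rfl h1, ← Finset.sum_filter, Finset.sum_const, nsmul_eq_mul]
    rfl
  have hB : ∀ P : Finset E → Prop, ((NS M ∅ ∅ P : ℕ) : ℝ) * ((NS M ∅ O tr : ℕ) : ℝ) =
      ∑ t ∈ M.D.powerset, ∑ S ∈ M.D.powerset, (c t S : ℝ) * (if P S then (1 : ℝ) else 0) := by
    intro P
    have h1 : ∀ S ∈ M.D.powerset, ∑ t ∈ M.D.powerset, (c t S : ℝ) * (if P S then (1:ℝ) else 0) =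
        if (IsST M S ∧ ∅ ⊆ S ∧ Disjoint S ∅ ∧ P S) then ((NS M ∅ O tr : ℕ) : ℝ) else 0 := by
      intro S _
      by_cases hP : P S
      · by_cases hI : IsST M S
        · rw [if_pos (show IsST M S ∧ ∅ ⊆ S ∧ Disjoint S ∅ ∧ P S from
            ⟨hI, Finset.empty_subset _, Finset.disjoint_empty_right _, hP⟩), ← hcS S hI, Nat.cast_sum]
          refine Finset.sum_congr rfl fun t _ => ?_
          rw [if_pos hP, mul_one]
        · rw [if_neg (show ¬ (IsST M S ∧ ∅ ⊆ S ∧ Disjoint S ∅ ∧ P S) from fun h2 => hI h2.1)]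
          refine Finset.sum_eq_zero fun t _ => ?_
          have : c t S = 0 := by
            by_contra hne
            exact hI (hc0 t S hne).2.2.1
          rw [this, Nat.cast_zero, zero_mul]
      · rw [if_neg (show ¬ (IsST M S ∧ ∅ ⊆ S ∧ Disjoint S ∅ ∧ P S) from fun h2 => hP h2.2.2.2)]
        refine Finset.sum_eq_zero fun t _ => ?_
        rw [if_neg hP, mul_zero]
    rw [Finset.sum_comm, Finset.sum_congr rfl h1, ← Finset.sum_filter, Finset.sum_const,
      nsmul_eq_mul]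
    rfl
  have hX' : (0 : ℝ) < ((NS M ∅ O tr : ℕ) : ℝ) := Nat.cast_pos.2 hpos
  have hY' : (0 : ℝ) < ((NS M ∅ ∅ tr : ℕ) : ℝ) := Nat.cast_pos.2 hnY
  have hD : ∀ P : Finset E → Prop,
      ((NS M ∅ O P : ℕ) : ℝ) / ((NS M ∅ O tr : ℕ) : ℝ) -
        ((NS M ∅ ∅ P : ℕ) : ℝ) / ((NS M ∅ ∅ tr : ℕ) : ℝ) =
      (∑ t ∈ M.D.powerset, ∑ S ∈ M.D.powerset, (c t S : ℝ) *
        ((if P t then (1 : ℝ) else 0) - (if P S then (1 : ℝ) else 0))) /
        (((NS M ∅ O tr : ℕ) : ℝ) * ((NS M ∅ ∅ tr : ℕ) : ℝ)) := by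
    intro P
    have h1 : ∑ t ∈ M.D.powerset, ∑ S ∈ M.D.powerset, (c t S : ℝ) *
        ((if P t then (1 : ℝ) else 0) - (if P S then (1 : ℝ) else 0)) =
        ((NS M ∅ O P : ℕ) : ℝ) * ((NS M ∅ ∅ tr : ℕ) : ℝ) -
        ((NS M ∅ ∅ P : ℕ) : ℝ) * ((NS M ∅ O tr : ℕ) : ℝ) := by
      rw [hA, hB, ← Finset.sum_sub_distrib]
      refine Finset.sum_congr rfl fun t _ => ?_
      rw [← Finset.sum_sub_distrib]
      refine Finset.sum_congr rfl fun S _ => ?_
      rw [mul_sub]
    rw [h1]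
    field_simp
  have hag : ∀ (e : E) (T : Finset E), agr {e} {e} T ↔ e ∈ T := by
    intro e T
    constructor
    · intro h1
      exact (h1 e (Finset.mem_singleton_self e)).2 (Finset.mem_singleton_self e)
    · intro h1 x hx
      rw [Finset.mem_singleton] at hx
      subst hx
      exact ⟨fun _ => Finset.mem_singleton_self _, fun _ => h1⟩
  have hmon : ∀ t S, c t S ≠ 0 → ∀ e ∈ F, e ∈ S → e ∈ t := by
    intro t S hne e he heS
    refine (hc0 t S hne).2.2.2 ?_
    rw [Finset.mem_sdiff]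
    exact ⟨heS, fun heO => (Finset.disjoint_left.1 hFO he heO)⟩
  have hterm : ∀ t S, c t S ≠ 0 → ∀ e ∈ F,
      (0 : ℝ) ≤ (if agr {e} {e} t then (1 : ℝ) else 0) - (if agr {e} {e} S then (1 : ℝ) else 0) := by
    intro t S hne e he
    by_cases h1 : agr {e} {e} S
    · have h2 : agr {e} {e} t := (hag e t).2 (hmon t S hne e he ((hag e S).1 h1))
      rw [if_pos h1, if_pos h2, sub_self]
    · rw [if_neg h1, sub_zero]
      split_ifs
      · exact zero_le_one
      · exact le_rfl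
  refine ⟨fun e he => ?_, ?_⟩
  · have h1 := hD (agr {e} {e})
    have h2 : (0 : ℝ) ≤ (∑ t ∈ M.D.powerset, ∑ S ∈ M.D.powerset, (c t S : ℝ) *
        ((if agr {e} {e} t then (1 : ℝ) else 0) - (if agr {e} {e} S then (1 : ℝ) else 0))) /
        (((NS M ∅ O tr : ℕ) : ℝ) * ((NS M ∅ ∅ tr : ℕ) : ℝ)) := by
      refine div_nonneg (Finset.sum_nonneg fun t _ => Finset.sum_nonneg fun S _ => ?_)
        (mul_pos hX' hY').le
      by_cases hne : c t S = 0
      · rw [hne, Nat.cast_zero, zero_mul]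
      · exact mul_nonneg (Nat.cast_nonneg _) (hterm t S hne e he)
    linarith
  · have h3 : ∑ e ∈ F, (((NS M ∅ O (agr {e} {e}) : ℕ) : ℝ) / ((NS M ∅ O tr : ℕ) : ℝ) -
        ((NS M ∅ ∅ (agr {e} {e}) : ℕ) : ℝ) / ((NS M ∅ ∅ tr : ℕ) : ℝ)) =
        (∑ t ∈ M.D.powerset, ∑ S ∈ M.D.powerset, (c t S : ℝ) * ∑ e ∈ F,
        ((if agr {e} {e} t then (1 : ℝ) else 0) - (if agr {e} {e} S then (1 : ℝ) else 0))) /
        (((NS M ∅ O tr : ℕ) : ℝ) * ((NS M ∅ ∅ tr : ℕ) : ℝ)) := by
      rw [Finset.sum_congr rfl (fun e _ => hD (agr {e} {e})), ← Finset.sum_div]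
      congr 1
      rw [Finset.sum_comm]
      refine Finset.sum_congr rfl fun t _ => ?_
      rw [Finset.sum_comm]
      refine Finset.sum_congr rfl fun S _ => ?_
      rw [Finset.mul_sum]
    rw [h3, hD (agr F S0), abs_div, abs_of_pos (mul_pos hX' hY')]
    refine div_le_div_of_nonneg_right ?_ (mul_pos hX' hY').le
    refine (Finset.abs_sum_le_sum_abs _ _).trans (Finset.sum_le_sum fun t _ => ?_)
    refine (Finset.abs_sum_le_sum_abs _ _).trans (Finset.sum_le_sum fun S _ => ?_)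
    by_cases hne : c t S = 0
    · rw [hne, Nat.cast_zero, zero_mul, zero_mul, abs_zero]
    · rw [abs_mul, Nat.abs_cast]
      refine mul_le_mul_of_nonneg_left ?_ (Nat.cast_nonneg _)
      by_cases hall : ∀ e ∈ F, (e ∈ t ↔ e ∈ S)
      · have h4 : agr F S0 t ↔ agr F S0 S := by
          constructor
          · intro h5 e he
            rw [← hall e he]
            exact h5 e he
          · intro h5 e he
            rw [hall e he]
            exact h5 e he
        have h5 : (if agr F S0 t then (1 : ℝ) else 0) - (if agr F S0 S then (1 : ℝ) else 0) = 0 := by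
          by_cases h6 : agr F S0 S
          · rw [if_pos h6, if_pos (h4.2 h6), sub_self]
          · rw [if_neg h6, if_neg (fun h7 => h6 (h4.1 h7)), sub_self]
        rw [h5, abs_zero]
        exact Finset.sum_nonneg fun e he => hterm t S hne e he
      · push Not at hall
        obtain ⟨e, he, h4⟩ := hall
        have h5 : e ∈ t ∧ e ∉ S := by
          rcases h4 with h4 | h4
          · exact h4
          · exact absurd (hmon t S hne e he h4.2) h4.1
        have h6 : (if agr {e} {e} t then (1 : ℝ) else 0) - (if agr {e} {e} S then (1 : ℝ) else 0) = 1 := by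
          rw [if_pos ((hag e t).2 h5.1), if_neg (fun h7 => h5.2 ((hag e S).1 h7)), sub_zero]
        calc |(if agr F S0 t then (1 : ℝ) else 0) - (if agr F S0 S then (1 : ℝ) else 0)| ≤ 1 := by
              split_ifs <;> norm_num
          _ = (if agr {e} {e} t then (1 : ℝ) else 0) - (if agr {e} {e} S then (1 : ℝ) else 0) :=
              h6.symm
          _ ≤ _ := Finset.single_le_sum (f := fun e => (if agr {e} {e} t then (1 : ℝ) else 0) -
              (if agr {e} {e} S then (1 : ℝ) else 0)) (fun x hx => hterm t S hne x hx) he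

end Pool.Agent.Y908.WU
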