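import Pool.Agent.Y908.WU.NSB

/-! WU-FM : the theorem of Feder and Mihail for spanning trees (helper908). -/

set_option autoImplicit false

namespace Pool.Agent.Y908.WU

open Pool.Agent.Y782.WU
open scoped BigOperators

section
variable {W E : Type} (M : FG W E)

open Classical in
/-- double counting -/
theorem dc (Y O : Finset E) (P : Finset E → Prop) :
    ∑ f ∈ M.D \ (Y ∪ O), NS M (insert f Y) O P = (M.A.card - 1 - Y.card) * NS M Y O P := by
  have h1 : ∀ f ∈ M.D \ (Y ∪ O), NS M (insert f Y) O P =
      ((ns M Y O P).filter (fun S => f ∈ S)).card := by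
    intro f _
    rw [NS_eq]
    congr 1
    ext S
    rw [Finset.mem_filter, mem_ns, mem_ns, Finset.insert_subset_iff]
    tauto
  rw [Finset.sum_congr rfl h1]
  have h2 : ∑ f ∈ M.D \ (Y ∪ O), ((ns M Y O P).filter (fun S => f ∈ S)).card =
      ∑ S ∈ ns M Y O P, ((M.D \ (Y ∪ O)).filter (fun f => f ∈ S)).card := by
    exact Finset.sum_card_bipartiteAbove_eq_sum_card_bipartiteBelow (fun (f : E) (S : Finset E) => f ∈ S)
  rw [h2]
  have h3 : ∀ S ∈ ns M Y O P, ((M.D \ (Y ∪ O)).filter (fun f => f ∈ S)).card =
      M.A.card - 1 - Y.card := by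
    intro S hS
    rw [mem_ns] at hS
    have h4 : (M.D \ (Y ∪ O)).filter (fun f => f ∈ S) = S \ Y := by
      ext x
      rw [Finset.mem_filter, Finset.mem_sdiff, Finset.mem_sdiff, Finset.mem_union]
      constructor
      · rintro ⟨⟨_, h5⟩, h6⟩
        exact ⟨h6, fun h7 => h5 (Or.inl h7)⟩
      · rintro ⟨h5, h6⟩
        refine ⟨⟨hS.1.1 h5, ?_⟩, h5⟩
        rintro (h7 | h7)
        · exact h6 h7
        · exact Finset.disjoint_left.1 hS.2.2.1 h5 h7
    rw [h4, Finset.card_sdiff_of_subset hS.2.1]
    have := hS.1.2.1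
    omega
  rw [Finset.sum_congr rfl h3, Finset.sum_const, smul_eq_mul, mul_comm]
  rfl

end

theorem arith (p11 p10 p01 p00 n11 n10 n01 n00 : ℕ) (h1 : p11 * n01 ≤ p01 * n11)
    (h2 : p10 * n00 ≤ p00 * n10) (hr : n11 * n00 ≤ n10 * n01) (hc : n11 * p10 ≤ p11 * n10)
    (hp : 0 < n11) (hp10 : p10 ≤ n10) :
    (p11 + p10) * (n01 + n00) ≤ (p01 + p00) * (n11 + n10) := by
  rcases Nat.eq_zero_or_pos n10 with hz | hz
  · subst hz
    have hz1 : p10 = 0 := by omega
    have hz2 : n00 = 0 := by
      rcases Nat.eq_zero_or_pos n00 with h3 | h3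
      · exact h3
      · have := Nat.mul_pos hp h3
        omega
    subst hz1
    subst hz2
    calc (p11 + 0) * (n01 + 0) = p11 * n01 := by ring
      _ ≤ p01 * n11 := h1
      _ ≤ (p01 + p00) * (n11 + 0) := by nlinarith
  · have hpos : 0 < n11 * n10 := Nat.mul_pos hp hz
    refine Nat.le_of_mul_le_mul_left (c := n11 * n10) ?_ hpos
    zify at *
    have e1 : (0 : ℤ) ≤ ((p11 : ℤ) * n10 - n11 * p10) * (n10 * n01 - n11 * n00) :=
      mul_nonneg (by linarith) (by linarith)
    have e2 : (n10 : ℤ) * (n11 + n10) * (p11 * n01) ≤ n10 * (n11 + n10) * (p01 * n11) :=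
      mul_le_mul_of_nonneg_left h1 (by positivity)
    have e3 : (n11 : ℤ) * (n11 + n10) * (p10 * n00) ≤ n11 * (n11 + n10) * (p00 * n10) :=
      mul_le_mul_of_nonneg_left h2 (by positivity)
    nlinarith [e1, e2, e3]

open Classical in
theorem fm (h : S_RAY) : S_FM := by
  intro W E M Y O e P heY heO hinc hers
  induction' hn : (M.D \ (insert e Y ∪ O)).card using Nat.strong_induction_on with n IH
    generalizing Y O
  rcases Nat.eq_zero_or_pos (NS M (insert e Y) O P) with hp1 | hp1
  · rw [hp1, zero_mul]
    exact Nat.zero_le _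
  have hle1 : NS M (insert e Y) O P ≤ NS M (insert e Y) O tr := NS_le_tr M _ _ _
  rcases Nat.eq_zero_or_pos (M.A.card - 1 - (insert e Y).card) with hk | hk
  · -- the tree is `insert e Y`
    obtain ⟨S, hS1, hS2, hS3, hS4⟩ := (NS_pos_iff M _ _ _).1 hp1
    have hSe : insert e Y = S := by
      apply Finset.eq_of_subset_of_card_le hS2
      have := hS1.2.1
      omega
    have hPY : P Y := by
      have := hers S hS4
      rw [← hSe, Finset.erase_insert heY] at this
      exact this
    have h5 : NS M Y (insert e O) tr ≤ NS M Y (insert e O) P :=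
      NS_mono M fun S' _ h6 h7 _ => ⟨h6, h7, hinc Y S' h6 hPY⟩
    calc NS M (insert e Y) O P * NS M Y (insert e O) tr
        ≤ NS M (insert e Y) O tr * NS M Y (insert e O) P := Nat.mul_le_mul hle1 h5
      _ = _ := mul_comm _ _
  · -- choice of `f`
    obtain ⟨f, hfR, hf1, hf2⟩ : ∃ f ∈ M.D \ (insert e Y ∪ O),
        0 < NS M (insert f (insert e Y)) O P ∧
        NS M (insert f (insert e Y)) O tr * NS M (insert e Y) O P ≤
          NS M (insert f (insert e Y)) O P * NS M (insert e Y) O tr := by
      by_contra hcon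
      push Not at hcon
      have d1 := dc M (insert e Y) O P
      have d2 := dc M (insert e Y) O tr
      have h6 : ∀ f ∈ M.D \ (insert e Y ∪ O),
          NS M (insert f (insert e Y)) O P * NS M (insert e Y) O tr ≤
          NS M (insert f (insert e Y)) O tr * NS M (insert e Y) O P := by
        intro f hf
        rcases Nat.eq_zero_or_pos (NS M (insert f (insert e Y)) O P) with h7 | h7
        · rw [h7, zero_mul]
          exact Nat.zero_le _
        · exact (hcon f hf h7).le
      have h8 : 0 < ∑ f ∈ M.D \ (insert e Y ∪ O), NS M (insert f (insert e Y)) O P := by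
        rw [d1]
        exact Nat.mul_pos hk hp1
      obtain ⟨f, hf, hfp⟩ := Finset.exists_ne_zero_of_sum_ne_zero h8.ne'
      have h9 : ∑ f ∈ M.D \ (insert e Y ∪ O),
          NS M (insert f (insert e Y)) O P * NS M (insert e Y) O tr <
          ∑ f ∈ M.D \ (insert e Y ∪ O),
          NS M (insert f (insert e Y)) O tr * NS M (insert e Y) O P :=
        Finset.sum_lt_sum h6 ⟨f, hf, hcon f hf (Nat.pos_of_ne_zero hfp)⟩
      rw [← Finset.sum_mul, ← Finset.sum_mul, d1, d2] at h9
      have h10 : (M.A.card - 1 - (insert e Y).card) * NS M (insert e Y) O P *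
          NS M (insert e Y) O tr = (M.A.card - 1 - (insert e Y).card) * NS M (insert e Y) O tr *
          NS M (insert e Y) O P := by ring
      omega
    have hf := Finset.mem_sdiff.1 hfR
    rw [Finset.mem_union, Finset.mem_insert, not_or, not_or] at hf
    obtain ⟨hfD, ⟨hfe, hfY⟩, hfO⟩ := hf
    have ih1 := IH (M.D \ (insert e (insert f Y) ∪ O)).card (by
      rw [← hn]
      apply Finset.card_lt_card
      rw [Finset.ssubset_iff_of_subset]
      · refine ⟨f, hfR, ?_⟩
        rw [Finset.mem_sdiff, not_and_not_right]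
        intro _
        rw [Finset.mem_union, Finset.mem_insert, Finset.mem_insert]
        exact Or.inl (Or.inr (Or.inl rfl))
      · apply Finset.sdiff_subset_sdiff (Finset.Subset.refl _)
        apply Finset.union_subset_union _ (Finset.Subset.refl _)
        exact Finset.insert_subset_insert _ (Finset.subset_insert _ _)) (insert f Y) O (by
      rw [Finset.mem_insert, not_or]
      exact ⟨fun h => hfe h.symm, heY⟩) heO rfl
    have ih2 := IH (M.D \ (insert e Y ∪ insert f O)).card (by
      rw [← hn]
      apply Finset.card_lt_card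
      rw [Finset.ssubset_iff_of_subset]
      · refine ⟨f, hfR, ?_⟩
        rw [Finset.mem_sdiff, not_and_not_right]
        intro _
        rw [Finset.mem_union, Finset.mem_insert, Finset.mem_insert]
        exact Or.inr (Or.inl rfl)
      · apply Finset.sdiff_subset_sdiff (Finset.Subset.refl _)
        exact Finset.union_subset_union (Finset.Subset.refl _) (Finset.subset_insert _ _))
      Y (insert f O) heY (by
      rw [Finset.mem_insert, not_or]
      exact ⟨fun h => hfe h.symm, heO⟩) rfl
    have hray := h W E M Y O e f (fun h => hfe h.symm) heY heO hfY hfO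
    have s1 := NS_split M (insert e Y) O P f
    have s2 := NS_split M (insert e Y) O tr f
    have s3 := NS_split M Y (insert e O) P f
    have s4 := NS_split M Y (insert e O) tr f
    rw [Finset.insert_comm e f Y] at ih1 hray
    rw [Finset.insert_comm e f O] at ih2 hray
    have hle10 := NS_le_tr M (insert e Y) (insert f O) P
    have hle11 := NS_le_tr M (insert f (insert e Y)) O P
    rw [s1, s2] at hf2
    rw [s1, s2, s3, s4]
    refine arith _ _ _ _ _ _ _ _ ih1 ih2 hray ?_ (lt_of_lt_of_le hf1 hle11) hle10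
    nlinarith [hf2]

end Pool.Agent.Y908.WU
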