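import Pool.Agent.Y782.WU.Stm

/-! Elementary facts on the counts `NS` (helper908). -/

set_option autoImplicit false

namespace Pool.Agent.Y908.WU

open Pool.Agent.Y782.WU
open Classical in
/-- the set which is counted -/
noncomputable def ns {W E : Type} (M : FG W E) (Y O : Finset E) (P : Finset E → Prop) :
    Finset (Finset E) :=
  M.D.powerset.filter (fun S : Finset E => IsST M S ∧ Y ⊆ S ∧ Disjoint S O ∧ P S)

section
variable {W E : Type} (M : FG W E)

theorem NS_eq (Y O : Finset E) (P : Finset E → Prop) : NS M Y O P = (ns M Y O P).card := rfl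

theorem mem_ns {Y O : Finset E} {P : Finset E → Prop} {S : Finset E} :
    S ∈ ns M Y O P ↔ IsST M S ∧ Y ⊆ S ∧ Disjoint S O ∧ P S := by
  classical
  unfold ns
  rw [Finset.mem_filter, Finset.mem_powerset]
  constructor
  · exact fun h => h.2
  · exact fun h => ⟨h.1.1, h⟩

theorem NS_mono {Y Y' O O' : Finset E} {P P' : Finset E → Prop}
    (h : ∀ S, IsST M S → Y ⊆ S → Disjoint S O → P S → Y' ⊆ S ∧ Disjoint S O' ∧ P' S) :
    NS M Y O P ≤ NS M Y' O' P' := by
  rw [NS_eq, NS_eq]
  apply Finset.card_le_card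
  intro S hS
  rw [mem_ns] at hS ⊢
  exact ⟨hS.1, h S hS.1 hS.2.1 hS.2.2.1 hS.2.2.2⟩

theorem NS_congr {Y Y' O O' : Finset E} {P P' : Finset E → Prop}
    (h : ∀ S, IsST M S → ((Y ⊆ S ∧ Disjoint S O ∧ P S) ↔ (Y' ⊆ S ∧ Disjoint S O' ∧ P' S))) :
    NS M Y O P = NS M Y' O' P' := by
  apply le_antisymm
  · exact NS_mono M fun S h1 h2 h3 h4 => (h S h1).1 ⟨h2, h3, h4⟩
  · exact NS_mono M fun S h1 h2 h3 h4 => (h S h1).2 ⟨h2, h3, h4⟩

theorem NS_le_tr (Y O : Finset E) (P : Finset E → Prop) : NS M Y O P ≤ NS M Y O tr :=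
  NS_mono M fun _ _ h2 h3 _ => ⟨h2, h3, trivial⟩

open Classical in
theorem NS_split (Y O : Finset E) (P : Finset E → Prop) (f : E) :
    NS M Y O P = NS M (insert f Y) O P + NS M Y (insert f O) P := by
  rw [NS_eq, NS_eq, NS_eq]
  have h1 : ns M Y O P = ns M (insert f Y) O P ∪ ns M Y (insert f O) P := by
    ext S
    rw [Finset.mem_union, mem_ns, mem_ns, mem_ns]
    by_cases hf : f ∈ S
    · have h2 : insert f Y ⊆ S ↔ Y ⊆ S := by
        rw [Finset.insert_subset_iff]; exact and_iff_right hf
      have h3 : ¬ Disjoint S (insert f O) := by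
        rw [Finset.disjoint_insert_right]
        exact fun h => h.1 hf
      rw [h2]
      tauto
    · have h2 : ¬ insert f Y ⊆ S := fun h => hf (h (Finset.mem_insert_self _ _))
      have h3 : Disjoint S (insert f O) ↔ Disjoint S O := by
        rw [Finset.disjoint_insert_right]
        exact and_iff_right hf
      rw [h3]
      tauto
  rw [h1, Finset.card_union_of_disjoint]
  rw [Finset.disjoint_left]
  intro S h2 h3
  rw [mem_ns] at h2 h3
  have h4 := h3.2.2.1
  rw [Finset.disjoint_insert_right] at h4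
  exact h4.1 (h2.2.1 (Finset.mem_insert_self _ _))

theorem NS_pos_iff (Y O : Finset E) (P : Finset E → Prop) :
    0 < NS M Y O P ↔ ∃ S, IsST M S ∧ Y ⊆ S ∧ Disjoint S O ∧ P S := by
  rw [NS_eq, Finset.card_pos]
  constructor
  · rintro ⟨S, hS⟩
    exact ⟨S, (mem_ns M).1 hS⟩
  · rintro ⟨S, hS⟩
    exact ⟨S, (mem_ns M).2 hS⟩

end

/-! ### deletion increases the tree -/

open Classical in
theorem dom (h : S_FM) : S_DOM := by
  intro W E M O P hpos hinc hO
  have key : ∀ O' : Finset E, O' ⊆ O →
      NS M ∅ ∅ P * NS M ∅ O' tr ≤ NS M ∅ O' P * NS M ∅ ∅ tr := by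
    intro O'
    induction O' using Finset.induction_on with
    | empty => intro _; exact le_rfl
    | insert e O' he ih =>
      intro hsub
      have hsub' : O' ⊆ O := (Finset.subset_insert _ _).trans hsub
      have heO : e ∈ O := hsub (Finset.mem_insert_self _ _)
      have hI := ih hsub'
      have hfm := h W E M ∅ O' e P (Finset.notMem_empty _) he hinc (by
        intro S hS
        refine hinc (S \ O) _ ?_ (hO S hS)
        intro x hx
        rw [Finset.mem_sdiff] at hx
        rw [Finset.mem_erase]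
        exact ⟨fun hxe => hx.2 (hxe ▸ heO), hx.1⟩)
      have s1 := NS_split M ∅ O' P e
      have s2 := NS_split M ∅ O' tr e
      have hn : 0 < NS M ∅ O' tr := lt_of_lt_of_le hpos (NS_mono M fun S _ h2 h3 _ =>
        ⟨h2, Finset.disjoint_of_subset_right hsub' h3, trivial⟩)
      rw [s1] at hI
      rw [s2] at hI hn
      generalize NS M (insert e ∅) O' P = p1 at *
      generalize NS M ∅ (insert e O') P = p0 at *
      generalize NS M (insert e ∅) O' tr = n1 at *
      generalize NS M ∅ (insert e O') tr = n0 at *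
      generalize NS M ∅ ∅ P = a at *
      generalize NS M ∅ ∅ tr = b at *
      -- hI : a * (n1 + n0) ≤ (p1 + p0) * b ; hfm : p1 * n0 ≤ p0 * n1
      have h1 : a * n0 * (n1 + n0) ≤ p0 * b * (n1 + n0) := by
        calc a * n0 * (n1 + n0) = (a * (n1 + n0)) * n0 := by ring
          _ ≤ ((p1 + p0) * b) * n0 := Nat.mul_le_mul_right _ hI
          _ = (p1 * n0) * b + p0 * n0 * b := by ring
          _ ≤ (p0 * n1) * b + p0 * n0 * b := Nat.add_le_add_right (Nat.mul_le_mul_right _ hfm) _
          _ = p0 * b * (n1 + n0) := by ring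
      exact Nat.le_of_mul_le_mul_right h1 hn
  exact key O (Finset.Subset.refl _)

/-! ### monotone coupling -/

open Classical in
theorem hl (h : S_DOM) : S_HL := by
  intro W E M O hpos
  set X := ns M ∅ O tr with hX
  set Y := ns M ∅ ∅ tr with hY
  have hXm : ∀ t, t ∈ X ↔ IsST M t ∧ Disjoint t O := by
    intro t
    rw [hX, mem_ns]
    constructor
    · exact fun h => ⟨h.1, h.2.2.1⟩
    · exact fun h => ⟨h.1, Finset.empty_subset _, h.2, trivial⟩
  have hYm : ∀ S, S ∈ Y ↔ IsST M S := by
    intro S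
    rw [hY, mem_ns]
    constructor
    · exact fun h => h.1
    · exact fun h => ⟨h, Finset.empty_subset _, Finset.disjoint_empty_right _, trivial⟩
  have hnX : NS M ∅ O tr = X.card := rfl
  have hnY : NS M ∅ ∅ tr = Y.card := rfl
  let ι := {S // S ∈ Y} × Fin X.card
  let T : ι → Finset (Finset E × Fin Y.card) := fun x =>
    (X.filter (fun t => x.1.1 \ O ⊆ t)) ×ˢ Finset.univ
  have hall : ∀ s : Finset ι, s.card ≤ (s.biUnion T).card := by
    intro s
    let 𝒮 : Finset (Finset E) := s.image (fun x => x.1.1)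
    let P : Finset E → Prop := fun U => ∃ S ∈ 𝒮, S \ O ⊆ U
    have h1 : s.card ≤ 𝒮.card * X.card := by
      have h2 : s.image (fun x : ι => (x.1.1, x.2)) ⊆ 𝒮 ×ˢ (Finset.univ : Finset (Fin X.card)) := by
        intro y hy
        rw [Finset.mem_image] at hy
        obtain ⟨x, hx, rfl⟩ := hy
        rw [Finset.mem_product]
        exact ⟨Finset.mem_image.2 ⟨x, hx, rfl⟩, Finset.mem_univ _⟩
      have h3 : (s.image (fun x : ι => (x.1.1, x.2))).card = s.card := by
        apply Finset.card_image_of_injective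
        rintro ⟨⟨a, ha⟩, i⟩ ⟨⟨b, hb⟩, j⟩ hab
        simp only [Prod.mk.injEq] at hab
        obtain ⟨h4, h5⟩ := hab
        subst h4
        subst h5
        rfl
      rw [← h3]
      refine (Finset.card_le_card h2).trans ?_
      rw [Finset.card_product, Finset.card_univ, Fintype.card_fin]
    have h2 : 𝒮.card ≤ NS M ∅ ∅ P := by
      rw [NS_eq]
      apply Finset.card_le_card
      intro S hS
      rw [Finset.mem_image] at hS
      obtain ⟨x, hx, rfl⟩ := hS
      rw [mem_ns]
      exact ⟨(hYm _).1 x.1.2, Finset.empty_subset _, Finset.disjoint_empty_right _,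
        x.1.1, Finset.mem_image.2 ⟨x, hx, rfl⟩, Finset.sdiff_subset⟩
    have h3 := h W E M O P hpos (fun S S' hSS' => by
        rintro ⟨U, hU, hUS⟩
        exact ⟨U, hU, hUS.trans hSS'⟩) (fun S => by
        rintro ⟨U, hU, hUS⟩
        refine ⟨U, hU, fun x hx => ?_⟩
        rw [Finset.mem_sdiff]
        exact ⟨hUS hx, (Finset.mem_sdiff.1 hx).2⟩)
    have h4 : NS M ∅ O P * Y.card ≤ (s.biUnion T).card := by
      rw [NS_eq]
      have h5 : (ns M ∅ O P) ×ˢ (Finset.univ : Finset (Fin Y.card)) ⊆ s.biUnion T := by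
        intro y hy
        rw [Finset.mem_product, mem_ns] at hy
        obtain ⟨S, hS, hSy⟩ := hy.1.2.2.2
        rw [Finset.mem_image] at hS
        obtain ⟨x, hx, rfl⟩ := hS
        rw [Finset.mem_biUnion]
        refine ⟨x, hx, ?_⟩
        rw [Finset.mem_product, Finset.mem_filter]
        exact ⟨⟨(hXm _).2 ⟨hy.1.1, hy.1.2.2.1⟩, hSy⟩, Finset.mem_univ _⟩
      have h6 := Finset.card_le_card h5
      rwa [Finset.card_product, Finset.card_univ, Fintype.card_fin] at h6
    calc s.card ≤ 𝒮.card * X.card := h1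
      _ ≤ NS M ∅ ∅ P * X.card := Nat.mul_le_mul_right _ h2
      _ ≤ NS M ∅ O P * Y.card := h3
      _ ≤ _ := h4
  obtain ⟨f, hf, hfT⟩ := (Finset.all_card_le_biUnion_card_iff_exists_injective T).1 hall
  have hfX : ∀ x, (f x).1 ∈ X ∧ x.1.1 \ O ⊆ (f x).1 := by
    intro x
    have := hfT x
    rw [Finset.mem_product, Finset.mem_filter] at this
    exact this.1
  have himg : Finset.univ.image f = X ×ˢ (Finset.univ : Finset (Fin Y.card)) := by
    apply Finset.eq_of_subset_of_card_le
    · intro y hy
      rw [Finset.mem_image] at hy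
      obtain ⟨x, _, rfl⟩ := hy
      rw [Finset.mem_product]
      exact ⟨(hfX x).1, Finset.mem_univ _⟩
    · rw [Finset.card_image_of_injective _ hf, Finset.card_product, Finset.card_univ,
        Finset.card_univ, Fintype.card_fin]
      have : Fintype.card ι = Y.card * X.card := by
        rw [Fintype.card_prod, Fintype.card_coe, Fintype.card_fin]
      rw [this, mul_comm]
  refine ⟨fun t S => (Finset.univ.filter (fun x : ι => x.1.1 = S ∧ (f x).1 = t)).card, ?_, ?_, ?_⟩
  · intro t S hne
    rw [← Nat.pos_iff_ne_zero, Finset.card_pos] at hne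
    obtain ⟨x, hx⟩ := hne
    rw [Finset.mem_filter] at hx
    obtain ⟨_, rfl, rfl⟩ := hx
    have h1 := hfX x
    have h2 := (hXm _).1 h1.1
    exact ⟨h2.1, h2.2, (hYm _).1 x.1.2, h1.2⟩
  · intro t ht htO
    have h1 : (Finset.univ.filter (fun x : ι => (f x).1 = t)).card =
        ∑ S ∈ M.D.powerset, (Finset.univ.filter (fun x : ι => x.1.1 = S ∧ (f x).1 = t)).card := by
      rw [Finset.card_eq_sum_card_fiberwise (f := fun x : ι => x.1.1) (t := M.D.powerset)]
      · refine Finset.sum_congr rfl fun S _ => ?_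
        congr 1
        ext x
        simp only [Finset.mem_filter, Finset.mem_univ, true_and]
        exact and_comm
      · intro x _
        exact Finset.mem_coe.2 (Finset.mem_powerset.2 ((hYm _).1 x.1.2).1)
    rw [← h1]
    have h2 : (Finset.univ.filter (fun x : ι => (f x).1 = t)).image f =
        {t} ×ˢ (Finset.univ : Finset (Fin Y.card)) := by
      ext y
      rw [Finset.mem_image, Finset.mem_product, Finset.mem_singleton]
      constructor
      · rintro ⟨x, hx, rfl⟩
        exact ⟨(Finset.mem_filter.1 hx).2, Finset.mem_univ _⟩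
      · rintro ⟨hy, _⟩
        have h3 : y ∈ Finset.univ.image f := by
          rw [himg, Finset.mem_product, hy]
          exact ⟨(hXm _).2 ⟨ht, htO⟩, Finset.mem_univ _⟩
        obtain ⟨x, _, hx⟩ := Finset.mem_image.1 h3
        exact ⟨x, Finset.mem_filter.2 ⟨Finset.mem_univ _, by rw [hx]; exact hy⟩, hx⟩
    have h3 := congrArg Finset.card h2
    rw [Finset.card_image_of_injective _ hf, Finset.card_product, Finset.card_singleton,
      Finset.card_univ, Fintype.card_fin, one_mul] at h3
    rw [h3]
    rfl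
  · intro S hS
    have h1 : (Finset.univ.filter (fun x : ι => x.1.1 = S)).card =
        ∑ t ∈ M.D.powerset, (Finset.univ.filter (fun x : ι => x.1.1 = S ∧ (f x).1 = t)).card := by
      rw [Finset.card_eq_sum_card_fiberwise (f := fun x : ι => (f x).1) (t := M.D.powerset)]
      · refine Finset.sum_congr rfl fun t _ => ?_
        congr 1
        ext x
        simp only [Finset.mem_filter, Finset.mem_univ, true_and]
      · intro x _
        exact Finset.mem_coe.2 (Finset.mem_powerset.2 ((hXm _).1 (hfX x).1).1.1)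
    rw [← h1]
    have h2 : Finset.univ.filter (fun x : ι => x.1.1 = S) =
        ({⟨S, (hYm S).2 hS⟩} : Finset {S // S ∈ Y}) ×ˢ (Finset.univ : Finset (Fin X.card)) := by
      ext x
      rw [Finset.mem_filter, Finset.mem_product, Finset.mem_singleton]
      constructor
      · rintro ⟨_, h3⟩
        exact ⟨Subtype.ext h3, Finset.mem_univ _⟩
      · rintro ⟨h3, _⟩
        exact ⟨Finset.mem_univ _, by rw [h3]⟩
    rw [h2, Finset.card_product, Finset.card_singleton, Finset.card_univ, Fintype.card_fin, one_mul]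
    rfl

end Pool.Agent.Y908.WU
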